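import Mathlib

set_option autoImplicit false

/-!
# A sector double sum

`∑_m (-1)^m q^(2m) (-q²;q²)_m / (1 - q^(2m+1)) = ∑_n q^(n²+2n) ∑_{i ≤ 2n+1} q^(i(i+1)/2)`,
truncated with an error term.
-/

namespace Pool.Agent.V11307.T6

open Finset

variable {K : Type*} [Field K] (q : K)

/-- `(q²;q²)_m` -/
def A (m : ℕ) : K := ∏ i ∈ range m, (1 - q^(2*(i+1)))

/-- `(-q²;q²)_m` -/
def P (m : ℕ) : K := ∏ i ∈ range m, (1 + q^(2*(i+1)))

lemma A_succ (m : ℕ) : A q (m+1) = A q m * (1 - q^(2*(m+1))) := by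
  rw [A, A, prod_range_succ]

lemma P_succ (m : ℕ) : P q (m+1) = P q m * (1 + q^(2*(m+1))) := by
  rw [P, P, prod_range_succ]

lemma A_zero : A q 0 = 1 := by simp [A]
lemma P_zero : P q 0 = 1 := by simp [P]

/-- Gaussian binomial coefficients in base `q²` -/
def g : ℕ → ℕ → K
  | _, 0 => 1
  | 0, _+1 => 0
  | n+1, j+1 => q^(2*(j+1)) * g n (j+1) + g n j

@[simp] lemma g_zero_right (n : ℕ) : g q n 0 = 1 := by cases n <;> rfl

lemma g_succ (n j : ℕ) : g q (n+1) (j+1) = q^(2*(j+1)) * g q n (j+1) + g q n j := rfl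

lemma g_eq_zero : ∀ (n j : ℕ), n < j → g q n j = 0 := by
  intro n
  induction n with
  | zero =>
    intro j hj
    obtain ⟨i, rfl⟩ : ∃ i, j = i+1 := ⟨j-1, by omega⟩
    rfl
  | succ n ih =>
    intro j hj
    obtain ⟨i, rfl⟩ : ∃ i, j = i+1 := ⟨j-1, by omega⟩
    rw [g_succ, ih _ (by omega), ih _ (by omega)]
    ring

lemma g_A : ∀ (n j : ℕ), j ≤ n → g q n j * (A q j * A q (n-j)) = A q n := by
  intro n
  induction n with
  | zero =>
    intro j hj
    obtain rfl : j = 0 := by omega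
    simp [A_zero]
  | succ n ih =>
    intro j hj
    rcases Nat.eq_zero_or_pos j with rfl | h0
    · simp [A_zero]
    obtain ⟨i, rfl⟩ : ∃ i, j = i+1 := ⟨j-1, by omega⟩
    rw [g_succ]
    rcases Nat.lt_or_ge n (i+1) with h | h
    · have hi : i = n := by omega
      subst hi
      rw [g_eq_zero q i (i+1) (by omega)]
      have := ih i le_rfl
      rw [Nat.sub_self, A_zero] at this
      rw [Nat.sub_self, A_zero, A_succ]
      linear_combination (1 - q^(2*(i+1))) * this
    · have h1 := ih (i+1) h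
      have h2 := ih i (by omega)
      rw [show n + 1 - (i+1) = n - i by omega]
      obtain ⟨d, rfl⟩ := Nat.exists_eq_add_of_le h
      rw [show i + 1 + d - (i+1) = d by omega] at h1
      rw [show i + 1 + d - i = d + 1 by omega] at h2 ⊢
      rw [A_succ q (i+1+d)]
      rw [A_succ q d] at h2 ⊢
      rw [A_succ q i] at h1 ⊢
      have e : q^(2*(i+1+d+1)) = q^(2*(i+1)) * q^(2*(d+1)) := by rw [← pow_add]; congr 1; ring
      rw [e]
      linear_combination q^(2*(i+1)) * (1 - q^(2*(d+1))) * h1 + (1 - q^(2*(i+1))) * h2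

/-- `(b;q²)_j` -/
def B (b : K) (j : ℕ) : K := ∏ i ∈ range j, (1 - b * q^(2*i))

lemma B_succ' (b : K) (j : ℕ) : B q b (j+1) = (1 - b) * B q (b*q^2) j := by
  rw [B, B, prod_range_succ']
  rw [mul_comm]
  congr 1
  · simp
  · apply prod_congr rfl
    intro i _
    ring

/-- `q`-Chu-Vandermonde with `c = 0` -/
lemma chu (n : ℕ) : ∀ b : K, ∑ j ∈ range (n+1), (-1)^j * q^((n-j)*(n-j-1)) * g q n j * B q b j =
    q^(n*(n-1)) * b^n := by
  induction n with
  | zero => intro b; simp [B]
  | succ n ih =>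
    intro b
    have h1 := ih b
    have h2 := ih (b*q^2)
    rw [sum_range_succ']
    have e1 : ∑ j ∈ range (n+1), (-1)^(j+1) * q^((n+1-(j+1))*(n+1-(j+1)-1)) * g q (n+1) (j+1) * B q b (j+1) =
        q^(2*n) * ∑ j ∈ range (n+1), (-1)^(j+1) * q^((n-(j+1))*(n-(j+1)-1)) * g q n (j+1) * B q b (j+1)
        - (1-b) * ∑ j ∈ range (n+1), (-1)^j * q^((n-j)*(n-j-1)) * g q n j * B q (b*q^2) j := by
      rw [mul_sum, mul_sum, ← sum_sub_distrib]
      apply sum_congr rfl
      intro j hj
      rw [mem_range] at hj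
      rw [show n + 1 - (j+1) = n - j by omega, g_succ]
      have e2 : q^((n-j)*(n-j-1)) * (q^(2*(j+1)) * g q n (j+1)) =
          q^(2*n) * (q^((n-(j+1))*(n-(j+1)-1)) * g q n (j+1)) := by
        rcases Nat.lt_or_ge n (j+1) with h | h
        · rw [g_eq_zero q n (j+1) h]; ring
        · obtain ⟨d, rfl⟩ := Nat.exists_eq_add_of_le h
          rw [show j + 1 + d - j = d+1 by omega, show j+1+d-(j+1) = d by omega, ← mul_assoc, ← mul_assoc,
            ← pow_add, ← pow_add]
          congr 2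
          rcases Nat.eq_zero_or_pos d with rfl | hd
          · simp
          · obtain ⟨f, rfl⟩ : ∃ f, d = f+1 := ⟨d-1, by omega⟩
            simp only [Nat.add_sub_cancel]
            ring
      have e3 := B_succ' q b j
      linear_combination ((-1)^(j+1) * B q b (j+1)) * e2 + (-1)^(j+1) * q^((n-j)*(n-j-1)) * g q n j * e3
    rw [e1, h2]
    have e4 : ∑ j ∈ range (n+1), (-1)^(j+1) * q^((n-(j+1))*(n-(j+1)-1)) * g q n (j+1) * B q b (j+1) =
        q^(n*(n-1)) * b^n - q^(n*(n-1)) := by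
      have h3 : ∑ j ∈ range (n+1+1), (-1)^j * q^((n-j)*(n-j-1)) * g q n j * B q b j =
          q^(n*(n-1)) * b^n := by
        rw [sum_range_succ, h1, g_eq_zero q n (n+1) (by omega)]
        ring
      rw [sum_range_succ'] at h3
      simp only [B, g_zero_right, pow_zero, range_zero, prod_empty, mul_one, one_mul, Nat.sub_zero] at h3 ⊢
      linear_combination h3
    rw [e4]
    simp only [B, g_zero_right, pow_zero, range_zero, prod_empty, mul_one, one_mul, Nat.sub_zero,
      Nat.add_sub_cancel]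
    have e5 : q^((n+1)*n) = q^(2*n) * q^(n*(n-1)) := by
      rw [← pow_add]
      congr 1
      rcases Nat.eq_zero_or_pos n with rfl | hn
      · simp
      · obtain ⟨f, rfl⟩ : ∃ f, n = f+1 := ⟨n-1, by omega⟩
        simp only [Nat.add_sub_cancel]
        ring
    rw [e5]
    ring

end Pool.Agent.V11307.T6
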