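import Pool.Agent.V11307.T6.Wn

set_option autoImplicit false

/-!
# The truncated identity
-/

namespace Pool.Agent.V11307.T6

open Finset

variable {K : Type*} [Field K] (q : K) (hq : ∀ i : ℕ, 1 - q^(i+1) ≠ 0)

include hq in
lemma w_closed (n : ℕ) : w q n = q^(n^2) * ∑ l ∈ range (n+1), q^(2*l^2+l) * (1 + q^(2*l+1)) := by
  induction n with
  | zero =>
    have h0 := hq 0
    simp only [w, c, zero_add, sum_range_one, A_zero]
    rw [show (1:ℕ) = 0+1 from rfl, A_succ, A_zero]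
    simp only [zero_add, pow_one] at h0
    norm_num
    rw [show (1:K) - q^2 = (1-q)*(1+q) by ring]
    field_simp
  | succ n ih =>
    have h := w_rec q hq n
    have e : w q (n+1) = q^(2*n+1) * w q n + (1 + q^(2*n+3)) * q^(3*(n+1)^2+(n+1)) := by
      linear_combination h
    rw [e, ih, sum_range_succ _ (n+1)]
    have e1 : q^((n+1)^2) = q^(2*n+1) * q^(n^2) := by rw [← pow_add]; congr 1; ring
    have e2 : q^(3*(n+1)^2+(n+1)) = q^((n+1)^2) * q^(2*(n+1)^2+(n+1)) := by rw [← pow_add]; congr 1; ring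
    rw [e2, e1]
    ring

/-- terms of the Lebesgue sum -/
def el (j k : ℕ) : K := q^(k*(k+1)) * A q (2*j+k+1) / A q k

/-- the Lebesgue sum -/
def Lb (j M : ℕ) : K := ∑ k ∈ range (M+1), el q j k

include hq in
lemma el_rec (j k : ℕ) : el q (j+1) k - (1 - q^(4*j+4)) * el q j k =
    -(q^(4*j+4) * (1 - q^(2*k+2)) * el q j (k+1)) + q^(4*j+4) * (1 - q^(2*k)) * el q j k := by
  unfold el
  have n1 := A_ne q hq k
  have n2 := A_ne q hq (k+1)
  rw [show 2*(j+1)+k+1 = 2*j+k+1+1+1 by ring, show 2*j+(k+1)+1 = 2*j+k+1+1 by ring,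
    A_succ q (2*j+k+1+1), A_succ q (2*j+k+1)]
  rw [A_succ q k] at n2 ⊢
  have n3 : 1 - q^(2*(k+1)) ≠ 0 := right_ne_zero_of_mul n2
  rw [show 2*k+2 = 2*(k+1) by ring]
  generalize A q (2*j+k+1) = a
  have e1 : q^((k+1)*(k+1+1)) = q^(k*(k+1)) * q^(2*(k+1)) := by rw [← pow_add]; congr 1; ring
  have e2 : q^(2*(2*j+k+1+1)) = q^(4*j+4) * q^(2*k) := by rw [← pow_add]; congr 1; ring
  have e3 : q^(2*(2*j+k+1+1+1)) = q^(4*j+4) * q^(2*(k+1)) := by rw [← pow_add]; congr 1; ring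
  rw [e1, e2, e3]
  field_simp
  ring

include hq in
lemma Lb_succ (j M : ℕ) : Lb q (j+1) M = (1 - q^(4*j+4)) * Lb q j M
    - q^(4*j+4) * (1 - q^(2*M+2)) * el q j (M+1) := by
  induction M with
  | zero =>
    have h := el_rec q hq j 0
    simp only [Lb, zero_add, sum_range_one]
    simp only [mul_zero, pow_zero, sub_self, zero_mul, add_zero, zero_add] at h ⊢
    linear_combination h
  | succ M ih =>
    have h := el_rec q hq j (M+1)
    rw [Lb, sum_range_succ, ← Lb, ih, Lb, Lb, sum_range_succ _ (M+1)]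
    rw [show 2*(M+1) = 2*M+2 by ring] at h
    rw [show 2*(M+1)+2 = 2*M+2+2 by ring]
    linear_combination h

include hq in
lemma Lb_zero (M : ℕ) : Lb q 0 M = 1 - q^((M+1)*(M+2)) := by
  induction M with
  | zero =>
    simp only [Lb, el, zero_add, sum_range_one, mul_zero, pow_zero, A_zero]
    rw [show (1:ℕ) = 0+1 from rfl, A_succ, A_zero]
    norm_num
  | succ M ih =>
    rw [Lb, sum_range_succ, ← Lb, ih, el]
    have n2 := A_ne q hq (M+1)
    rw [show 2*0+(M+1)+1 = (M+1)+1 by ring, A_succ q (M+1)]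
    have e1 : q^((M+1+1)*(M+1+2)) = q^((M+1)*(M+2)) * q^(2*(M+1+1)) := by rw [← pow_add]; congr 1; ring
    rw [e1, show (M+1)*(M+1+1) = (M+1)*(M+2) by ring]
    field_simp
    ring

/-- big-oh -/
def O (S : Subring K) (N : ℕ) (x : K) : Prop := ∃ y ∈ S, x = q^N * y

variable {q}
variable {S : Subring K}

lemma O.add {N : ℕ} {x y : K} (hx : O q S N x) (hy : O q S N y) : O q S N (x+y) := by
  obtain ⟨a, ha, rfl⟩ := hx
  obtain ⟨b, hb, rfl⟩ := hy
  exact ⟨a+b, S.add_mem ha hb, by ring⟩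

lemma O.sub {N : ℕ} {x y : K} (hx : O q S N x) (hy : O q S N y) : O q S N (x-y) := by
  obtain ⟨a, ha, rfl⟩ := hx
  obtain ⟨b, hb, rfl⟩ := hy
  exact ⟨a-b, S.sub_mem ha hb, by ring⟩

lemma O.mul_mem {N : ℕ} {x z : K} (hx : O q S N x) (hz : z ∈ S) : O q S N (x*z) := by
  obtain ⟨a, ha, rfl⟩ := hx
  exact ⟨a*z, S.mul_mem ha hz, by ring⟩

lemma O.zero (N : ℕ) : O q S N 0 := ⟨0, S.zero_mem, by ring⟩

lemma O.mono (hqS : q ∈ S) {N N' : ℕ} (h : N ≤ N') {x : K} (hx : O q S N' x) : O q S N x := by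
  obtain ⟨a, ha, rfl⟩ := hx
  obtain ⟨d, rfl⟩ := Nat.exists_eq_add_of_le h
  exact ⟨q^d * a, S.mul_mem (S.pow_mem hqS d) ha, by ring⟩

lemma O.sum {N : ℕ} (s : Finset ℕ) (f : ℕ → K) (h : ∀ i ∈ s, O q S N (f i)) : O q S N (∑ i ∈ s, f i) := by
  classical
  induction s using Finset.induction_on with
  | empty => simpa using O.zero N
  | insert a s ha ih =>
    rw [sum_insert ha]
    exact (h a (mem_insert_self a s)).add (ih (fun i hi => h i (mem_insert_of_mem hi)))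

variable (hqS : q ∈ S) (hinv : ∀ i : ℕ, (1 - q^(i+1))⁻¹ ∈ S)

include hqS in
lemma A_mem (m : ℕ) : A q m ∈ S :=
  S.prod_mem (fun _ _ => S.sub_mem S.one_mem (S.pow_mem hqS _))

include hqS in
lemma P_mem (m : ℕ) : P q m ∈ S :=
  S.prod_mem (fun _ _ => S.add_mem S.one_mem (S.pow_mem hqS _))

include hinv in
lemma A_inv_mem (m : ℕ) : (A q m)⁻¹ ∈ S := by
  induction m with
  | zero => rw [A_zero, inv_one]; exact S.one_mem
  | succ m ih =>
    rw [A_succ, mul_inv]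
    have := hinv (2*m+1)
    rw [show 2*m+1+1 = 2*(m+1) by ring] at this
    exact S.mul_mem ih this

include hq hqS hinv in
lemma Lb_O (j M : ℕ) : O q S ((M+1)*(M+2)) (Lb q j M - A q j * P q j) := by
  induction j with
  | zero =>
    rw [Lb_zero q hq, A_zero, P_zero]
    exact ⟨-1, S.neg_mem S.one_mem, by ring⟩
  | succ j ih =>
    rw [Lb_succ q hq, A_succ, P_succ]
    have h1 : O q S ((M+1)*(M+2)) (el q j (M+1)) := by
      refine ⟨A q (2*j+(M+1)+1) * (A q (M+1))⁻¹, S.mul_mem (A_mem hqS _) (A_inv_mem hinv _), ?_⟩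
      rw [el]
      rw [div_eq_mul_inv]
      ring
    have h2 := h1.mul_mem (S.mul_mem (S.pow_mem hqS (4*j+4)) (S.sub_mem S.one_mem (S.pow_mem hqS (2*M+2))))
    have h3 := ih.mul_mem (S.sub_mem S.one_mem (S.pow_mem hqS (4*j+4)))
    have h4 := h3.sub h2
    have e : (Lb q j M - A q j * P q j) * (1 - q^(4*j+4)) -
        el q j (M+1) * (q^(4*j+4) * (1 - q^(2*M+2))) =
        (1 - q^(4*j+4)) * Lb q j M - q^(4*j+4) * (1 - q^(2*M+2)) * el q j (M+1) -
          A q j * (1 - q^(2*(j+1))) * (P q j * (1 + q^(2*(j+1)))) := by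
      have : q^(4*j+4) = q^(2*(j+1)) * q^(2*(j+1)) := by rw [← pow_add]; congr 1; ring
      rw [this]
      ring
    rwa [e] at h4

include hq hqS hinv in
/-- **the truncated identity** -/
theorem main (M : ℕ) : O q S (2*M+2)
    (∑ j ∈ range (M+1), (-1)^j * q^(2*j) * P q j * (1 - q^(2*j+1))⁻¹ -
      ∑ n ∈ range (M+1), q^(n^2+2*n) * ∑ l ∈ range (n+1), q^(2*l^2+l) * (1 + q^(2*l+1))) := by
  have e1 : ∑ n ∈ range (M+1), q^(n^2+2*n) * ∑ l ∈ range (n+1), q^(2*l^2+l) * (1 + q^(2*l+1)) =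
      ∑ j ∈ range (M+1), (-1)^j * q^(2*j) * (A q j)⁻¹ * (1 - q^(2*j+1))⁻¹ * Lb q j (M-j) := by
    have e2 : ∑ n ∈ range (M+1), q^(n^2+2*n) * ∑ l ∈ range (n+1), q^(2*l^2+l) * (1 + q^(2*l+1)) =
        ∑ n ∈ range (M+1), ∑ j ∈ range (n+1), (fun j k => (-1)^j * q^(2*j) * (A q j)⁻¹ *
          (1 - q^(2*j+1))⁻¹ * el q j k) j (n-j) := by
      apply sum_congr rfl
      intro n _
      rw [show n^2+2*n = 2*n + n^2 by ring, pow_add, mul_assoc, ← w_closed q hq n, w, mul_sum]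
      apply sum_congr rfl
      intro j hj
      rw [mem_range] at hj
      obtain ⟨d, rfl⟩ := Nat.exists_eq_add_of_le (show j ≤ n by omega)
      simp only
      rw [c, el, show j + d - j = d by omega, show j+d+j+1 = 2*j+d+1 by ring]
      have e3 : q^(d*(d+1)) = q^(2*d) * q^(d*(d-1)) := by
        rw [← pow_add]
        congr 1
        rcases Nat.eq_zero_or_pos d with rfl | hn
        · simp
        · obtain ⟨f, rfl⟩ : ∃ f, d = f+1 := ⟨d-1, by omega⟩
          simp only [Nat.add_sub_cancel]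
          ring
      rw [e3, show 2*(j+d) = 2*j+2*d by ring, pow_add, div_eq_mul_inv, div_eq_mul_inv, div_eq_mul_inv, mul_inv]
      ring
    rw [e2]
    refine (sum_range_diag_flip (M+1) (fun j k => (-1)^j * q^(2*j) * (A q j)⁻¹ *
          (1 - q^(2*j+1))⁻¹ * el q j k)).trans ?_
    apply sum_congr rfl
    intro j hj
    rw [mem_range] at hj
    rw [Lb, mul_sum, show M + 1 - j = M - j + 1 by omega]
  rw [e1, ← sum_sub_distrib]
  apply O.sum
  intro j hj
  rw [mem_range] at hj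
  obtain ⟨d, rfl⟩ := Nat.exists_eq_add_of_le (show j ≤ M by omega)
  rw [show j + d - j = d by omega]
  have h1 := Lb_O hq hqS hinv j d
  have n1 := A_ne q hq j
  obtain ⟨y, hy, e⟩ := h1
  have e5 : (-1)^j * q^(2*j) * P q j * (1 - q^(2*j+1))⁻¹ -
      (-1)^j * q^(2*j) * (A q j)⁻¹ * (1 - q^(2*j+1))⁻¹ * Lb q j d =
      q^(2*j + (d+1)*(d+2)) * (-((-1)^j * (A q j)⁻¹ * (1 - q^(2*j+1))⁻¹ * y)) := by
    have e6 : Lb q j d = A q j * P q j + q^((d+1)*(d+2)) * y := by linear_combination e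
    rw [e6, pow_add]
    have : (A q j)⁻¹ * A q j = 1 := inv_mul_cancel₀ n1
    linear_combination (-((-1)^j * q^(2*j) * (1 - q^(2*j+1))⁻¹ * P q j)) * this
  rw [e5]
  apply O.mono hqS (N' := 2*j + (d+1)*(d+2)) (by nlinarith)
  refine ⟨_, ?_, rfl⟩
  have hm1 : ((-1:K))^j ∈ S := S.pow_mem (S.neg_mem S.one_mem) j
  exact S.neg_mem (S.mul_mem (S.mul_mem (S.mul_mem hm1 (A_inv_mem hinv j)) (hinv _)) hy)

end Pool.Agent.V11307.T6
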