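import Pool.Agent.V11307.T6.Alg

set_option autoImplicit false

/-!
# The inner sums
-/

namespace Pool.Agent.V11307.T6

open Finset

variable {K : Type*} [Field K] (q : K) (hq : ∀ i : ℕ, 1 - q^(i+1) ≠ 0)

include hq in
lemma A_ne (m : ℕ) : A q m ≠ 0 := by
  rw [A, prod_ne_zero_iff]
  intro i _
  have := hq (2*i+1)
  rwa [show 2*i+1+1 = 2*(i+1) by ring] at this

lemma B_A (n : ℕ) : ∀ j : ℕ, B q (q^(2*(n+1))) j * A q n = A q (n+j) := by
  intro j
  induction j with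
  | zero => simp [B]
  | succ j ih =>
    rw [B, prod_range_succ, ← B, show n + (j+1) = n+j+1 by ring, A_succ, ← ih]
    have : q^(2*(n+j+1)) = q^(2*(n+1)) * q^(2*j) := by rw [← pow_add]; congr 1; ring
    rw [this]
    ring

/-- the coefficients -/
def c (n j : ℕ) : K := (-1)^j * q^((n-j)*(n-j-1)) * A q (n+j+1) / (A q (n-j) * A q j)

/-- the inner sum -/
def w (n : ℕ) : K := ∑ j ∈ range (n+1), c q n j / (1 - q^(2*j+1))

include hq in
lemma vn (n : ℕ) : ∑ j ∈ range (n+1), (-1)^j * q^((n-j)*(n-j-1)) * A q (n+j) / (A q (n-j) * A q j) =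
    q^(3*n^2+n) := by
  have h := chu q n (q^(2*(n+1)))
  have e : ∑ j ∈ range (n+1), (-1)^j * q^((n-j)*(n-j-1)) * A q (n+j) / (A q (n-j) * A q j) =
      ∑ j ∈ range (n+1), (-1)^j * q^((n-j)*(n-j-1)) * g q n j * B q (q^(2*(n+1))) j := by
    apply sum_congr rfl
    intro j hj
    rw [mem_range] at hj
    have h1 := g_A q n j (by omega)
    have h2 := B_A q n j
    have n1 := A_ne q hq (n-j)
    have n2 := A_ne q hq j
    have n3 := A_ne q hq n
    rw [div_eq_iff (mul_ne_zero n1 n2), ← h2, ← h1]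
    ring
  rw [e, h, ← pow_mul, ← pow_add]
  congr 1
  rcases Nat.eq_zero_or_pos n with rfl | hn
  · simp
  · obtain ⟨f, rfl⟩ : ∃ f, n = f+1 := ⟨n-1, by omega⟩
    simp only [Nat.add_sub_cancel]
    ring

lemma small {W V X Y r : K} (h1 : W ≠ 0) (h2 : V ≠ 0) (h3 : 1 - X * r ≠ 0) (h4 : 1 - Y ≠ 0) (s Z T : K) :
    s*(Z*X)*(T*(1 - Y*(X*r*Y)))/((W*(1-X*r))*V)/(1-Y) - X*Y*(s*Z*T/(W*V)/(1-Y)) =
      (1 + X*r*Y)*(s*(Z*X)*T/((W*(1-X*r))*V)) := by
  field_simp
  ring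

include hq in
lemma w_rec (n : ℕ) : w q (n+1) - q^(2*n+1) * w q n =
    (1 + q^(2*n+3)) * q^(3*(n+1)^2+(n+1)) := by
  rw [← vn q hq (n+1), w, w, sum_range_succ, mul_sum, mul_sum, sum_range_succ _ (n+1),
    add_sub_right_comm, ← sum_sub_distrib]
  congr 1
  · apply sum_congr rfl
    intro j hj
    rw [mem_range] at hj
    obtain ⟨d, rfl⟩ := Nat.exists_eq_add_of_le (show j ≤ n by omega)
    unfold c
    rw [show j + d + 1 - j = d+1 by omega, show j+d-j = d by omega, show d + 1 - 1 = d by omega]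
    have n1 := A_ne q hq d
    have n2 := A_ne q hq j
    have n3 := A_ne q hq (d+1)
    have n4 := hq (2*j)
    rw [show j+d+1+j+1 = (2*j+d+1)+1 by ring, show j+d+j+1 = 2*j+d+1 by ring, show j+d+1+j = 2*j+d+1 by ring,
      A_succ q (2*j+d+1)]
    rw [A_succ q d] at n3 ⊢
    have n5 : 1 - q^(2*(d+1)) ≠ 0 := right_ne_zero_of_mul n3
    have e1 : q^((d+1)*d) = q^(d*(d-1)) * q^(2*d) := by
      rw [← pow_add]
      congr 1
      rcases Nat.eq_zero_or_pos d with rfl | hn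
      · simp
      · obtain ⟨f, rfl⟩ : ∃ f, d = f+1 := ⟨d-1, by omega⟩
        simp only [Nat.add_sub_cancel]
        ring
    rw [e1]
    have e2 : q^(2*(2*j+d+1+1)) = q^(2*j+1) * q^(2*(j+d)+3) := by rw [← pow_add]; congr 1; ring
    have e3 : q^(2*d) * q^(2*j+1) = q^(2*(j+d)+1) := by rw [← pow_add]; congr 1; ring
    have e4 : q^(2*(d+1)) * q^(2*j+1) = q^(2*(j+d)+3) := by rw [← pow_add]; congr 1; ring
    rw [e2]
    have e5 : q^(2*(d+1)) = q^(2*d) * q^2 := by rw [← pow_add]; congr 1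
    rw [← e3, ← e4, e5]
    rw [e5] at n5
    exact small n1 n2 n5 n4 _ _ _
  · unfold c
    rw [Nat.sub_self]
    have n2 := A_ne q hq (n+1)
    have n4 := hq (2*(n+1))
    rw [show n+1+(n+1)+1 = (n+1+(n+1))+1 by ring, A_succ q (n+1+(n+1))]
    have e : q^(2*(n+1+(n+1)+1)) = q^(2*(n+1)+1) * q^(2*n+3) := by rw [← pow_add]; congr 1; ring
    have e' : q^(2*(n+1)+1) = q^(2*n+3) := by congr 1
    rw [e, e'] 
    rw [e'] at n4
    rw [A_zero]
    field_simp
    ring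

end Pool.Agent.V11307.T6
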